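import Pool.Agent.U483.KR.Main

/-!
# Orlov's conjecture for varieties with the same class in the Grothendieck ring of varieties

`𝓜` is the category of the homological motives over `k` with coefficients in `F` (`F = ℚ` for `k` of characteristic
zero; in general `F` is the coefficient field of the Weil cohomology), `𝒞` is the category of Chow motives, `T m` are
the Tate motives. Known properties which are assumed (`PureMotives`, `Twists`, `ChowMotives`): the spaces of
morphisms of homological motives are finite-dimensional, idempotents split, additive functions of homological motives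
extend to `K_0(Var_k)` (Gillet and Soulé, Guillén and Navarro Aznar, Bittner, Bondarko), the functor `𝒞 ⟶ 𝓜` is full.

* If `n [X] 𝕃^m = n [X'] 𝕃^m` in `K_0(Var_k)`, `n ≠ 0` (for example if `X` and `X'` are `L`-equivalent, as conjectured by
  Kuznetsov and Shinder for simply connected derived equivalent varieties), then the homological motives of `X` and `X'` are
  isomorphic; if the homologically trivial endomorphisms of the Chow motives are nilpotent (for instance if
  the Chow motives are finite-dimensional in the sense of Kimura), then the Chow motives are isomorphic.
* The same is true if `n ([X] - [X'])` is a combination of classes of cellular varieties (polynomials in `𝕃`), and for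
  all `i` the groups of cycles of codimension `i` modulo numerical equivalence have the same rank.

So Orlov's conjecture is true for all pairs of derived equivalent varieties with Kimura-finite motives and one of these
properties of the classes. The proof is the theorem of Krull, Remak and Schmidt: objects of `𝓜` with equal
multiplicities of all indecomposable direct factors are isomorphic, and the multiplicities are additive functions.
-/

set_option autoImplicit false

open CategoryTheory CategoryTheory.Limits AlgebraicGeometry Pool.Agent.Y116.UV
  Pool.Agent.U483.KM Pool.Agent.U483.GU Pool.Agent.U483.KS Pool.Agent.U483.KT Pool.Agent.U483.KR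

namespace Pool.Agent.Results.MP_5c0b30_ag.GrothendieckRing

universe w x y z

theorem result (k F : Type) [Field k] [Field F] (𝓜 : Type w) [Category.{x} 𝓜] [Preadditive 𝓜]
    [Linear F 𝓜] [HasBinaryBiproducts 𝓜] [MonoidalCategory 𝓜] [IsIdempotentComplete 𝓜]
    (H : PureMotives.{w, x} k F 𝓜) (T : Twists.{w, x} 𝓜) (hT : ∀ m : ℤ, Indec (T.T m))
    (𝒞 : Type y) [Category.{z} 𝒞] [Preadditive 𝒞] (C : ChowMotives.{w, x, y, z} H 𝒞)
    (X X' : Var k) (hX : SmoothProjective X.1) (hX' : SmoothProjective X'.1)
    -- the classes agree up to `n` and `𝕃^m`, or up to cellular varieties (and the ranks agree)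
    (h : LEquivalent H T X X' ∨ (SameRanks F T (H.h X.1) (H.h X'.1) ∧
      ∃ n : ℤ, n ≠ 0 ∧ n • (cls X - cls X') ∈ tateGroup H T)) :
    Nonempty (H.h X.1 ≅ H.h X'.1) ∧
      (NilpotentKernel C.π (C.hC X.1) → NilpotentKernel C.π (C.hC X'.1) →
        Nonempty (C.hC X.1 ≅ C.hC X'.1)) := by
  have h1 : Nonempty (H.h X.1 ≅ H.h X'.1) := by
    rcases h with h | ⟨h2, n, hn, h3⟩
    · exact iso_of_lEquivalent hX hX' h
    · exact iso_of_tateGroup hT hX hX' hn h3 h2
  exact ⟨h1, fun h2 h3 => chow_iso C hX hX' h2 h3 h1⟩

end Pool.Agent.Results.MP_5c0b30_ag.GrothendieckRing
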