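import Pool.Agent.N180.MO.Main
import Pool.Agent.N190.JM.Mot

/-!
# Orlov's conjecture for hyperkähler varieties with finite-dimensional motives

**Theorem.** Let `X` and `Y` be derived equivalent hyperkähler varieties. Then there are cycles `z` on
`X × Y` and `z'` on `Y × X` of degree zero whose classes are mutually inverse isomorphisms between
the homological motives of `X` and `Y` (and the isomorphism `H(X, ℚ) → H(Y, ℚ)` respects the cup
product). **If the homologically trivial self-correspondences of degree zero of `X` and of `Y` are
nilpotent in the ring of correspondences modulo rational equivalence, `z` is an isomorphism of the Chow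
motives with rational coefficients `h(X) ≃ h(Y)`: Orlov's conjecture is true for `X` and `Y`.**

The condition is satisfied if the motives of `X` and `Y` are finite-dimensional in the sense of Kimura
and O'Sullivan (and it is enough to know this for one of the two, since a derived equivalence gives an
isomorphism of the sums of the Tate twists of the motives). For instance it is satisfied for

* generalised Kummer varieties and other moduli spaces of sheaves on abelian surfaces: these have
  motives of abelian type;
* Hilbert schemes of points and moduli spaces of stable sheaves on K3 surfaces with Picard number
  `≥ 19`, and on Kummer surfaces;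
* all varieties derived equivalent to them, about which nothing else needs to be known.

No condition on the kernel of the equivalence (its rank, its deformations) is needed, nor on the
deformation types of `X` and `Y`. The theorem is proved for an arbitrary preadditive category of
motives in which correspondences compose (`Motives`), so for the Chow motives, and also for instance
for motives modulo algebraic equivalence.

What is used about `X`, `Y` and the equivalence are the theorems of Looijenga-Lunts, Verbitsky, Mukai,
Orlov, Taelman, Calaque-Rossi-Van den Bergh collected in the structures `Hyperkahler` and
`DerivedEquivalence` (`HKData` and `DEData` in `Pool/Agent/N180/MO/Stm.lean`), for a Weil cohomology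
theory with coefficient field `ℚ`.

Proof. The existence of `z` and `z'` is the theorem `MP_b12c7d_ag.MultiplicativeOrlov` of the starting
library (`N180/MO/Main`). If `t = Δ_X - z' ∘ z` is nilpotent, `z' ∘ z` is invertible, with an inverse which
is a polynomial in `t`; and the same on `Y`. The reduction for general categories of motives is in
`N190/JM/Mot`. The combination of the two has not been handed in for Orlov's conjecture.
-/

open CategoryTheory AlgebraicGeometry

set_option autoImplicit false

universe u v w w'

namespace Pool.Agent.Results.MP_5c0b30_ag.HyperkahlerVarieties

open Pool.Agent.H914 Pool.Agent.H914.VarClass Pool.Agent.H914.VarClass.Obj Pool.Agent.N180.MOS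
  Pool.Agent.N190.JMS

/-- **Orlov's conjecture for hyperkähler varieties with finite-dimensional motives.** -/
theorem result {k : Type u} [Field k] {𝒱 : VarClass k} {ops : CycleOps 𝒱}
    (W : WeilCohomology.{u, v} ops) [Algebra W.K ℂ] (hK : IsRationalField W.K)
    (X Y : 𝒱.Obj) (hX : Hyperkahler W X) (hY : Hyperkahler W Y)
    (D : DerivedEquivalence hX hY) :
    ∃ (z : (X.prod Y).Cycles) (z' : (Y.prod X).Cycles), IsMotivicRingIso W X Y z z' ∧
      ∀ 𝓜 : Motives.{u, w, w'} ops, KernelNilpotent W 𝓜 X → KernelNilpotent W 𝓜 Y →
        GivesIso 𝓜 X Y z := by
  obtain ⟨z, z', h⟩ := main hK D
  refine ⟨z, z', h, fun 𝓜 nX nY => ?_⟩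
  have hdim : X.dim = Y.dim := D.dim_eq
  exact iso_of_pair hdim h.codim (by rw [hdim]; exact h.codim')
    ⟨h.ringIso.inverse.1, h.ringIso.inverse.2⟩ nX nY

end Pool.Agent.Results.MP_5c0b30_ag.HyperkahlerVarieties
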