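import Pool.Agent.N190.JM.Bridge

/-!
# Orlov's conjecture and the Lefschetz standard conjecture for equivalences of non-zero rank

Let `X` and `Y` be smooth projective varieties of the same dimension `n` over a field of any
characteristic, `W` a Weil cohomology theory with any coefficient field of characteristic zero, `D` and
`E` divisors with hard Lefschetz. Let `g` be a Lie algebra of Jordan-Lefschetz type of operators on
`H(X)`: graded in the degrees `-2, 0, 2`, with elements of degree `2` given by multiplications by
classes in `H^2(X)`, elements of degree zero skew for the cup product, containing the `sl(2)`-triple of
`D`. The example is the algebra of Looijenga, Lunts and Verbitsky of a hyperkähler variety. Let `g'` be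
such an algebra for `(Y, E)`.

Let `u : H(X) → H(Y)` and `v : H(Y) → H(X)` be mutually inverse algebraic operators (induced by
combinations of cycles of all codimensions) which exchange `g` and `g'`; for instance the
operators of the Mukai vectors of an equivalence of the derived categories and of its inverse
(Taelman). Suppose that some composition `u a`, where `a` is a product of algebraic elements of `g` (for
instance `a = 1`), has non-zero rank, i.e. does not kill the class of a point modulo classes of
positive degree, and the same for `v`.

**Theorem.** Then

1. the Lefschetz standard conjecture is true for `(X, D)` and for `(Y, E)`;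
2. there are mutually inverse algebraic operators `s, s'` which exchange `g` and `g'`, preserve the
   degrees, and satisfy `s(1) = 1` and `s(x y) = s(x) s(y)` for all `y` and for those `x` in `H^2(X)`
   for which the multiplication by `x` is in `g`;
3. there are cycles `z` on `X × Y` and `z'` on `Y × X` of degree zero with RATIONAL coefficients which
   are mutually inverse in cohomology, for the given theory and for ALL Weil cohomology theories
   for which `X` and `Y` have the same Betti numbers: the homological motives of `X` and `Y` are
   isomorphic;
4. in every category of motives (for instance Chow motives) in which the homologically trivial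
   self-correspondences of degree zero of `X` and of `Y` are nilpotent (for instance if the motives
   of `X` and `Y` are finite-dimensional in the sense of Kimura), `z` is an isomorphism
   `h(X) ≃ h(Y)`.

No other conjecture is assumed. In characteristic zero the homological part for derived equivalent
hyperkähler varieties is known from `MP_b12c7d_ag.MultiplicativeOrlov` without the condition on the
rank, but with much more input (complex numbers, contractions, Hodge structures); here only algebraic
operators and the three-graded Lie algebras are used, in any characteristic, and the Lefschetz standard
conjecture is obtained in addition.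

Proof. An algebraic element `w` of `g` such that `w^n` has non-zero rank is obtained by conjugation from
the cup product with the class of `E`; it gives `B(X)`, as its component of degree `-2` is a
lowering operator with the Lefschetz property (see `MP_6054cc_ag.JordanLefschetz`). The same for `Y`. So
`g` and `g'` contain algebraic `sl(2)`-triples. A Lie isomorphism of non-zero rank lies in the big cell:
composed with exponentials of algebraic elements of degrees `2` and `-2` it reverses the degrees,
and composed with the Weyl element of an algebraic triple it preserves them. This is `s`. Cycles with
rational coefficients, valid for all theories, are found because given `B` the traces of the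
correspondences on the `H^i` are rational and independent of the theory.

The theorem is assembled from the file `N190/JM/Bridge` of the starting library, whose final theorem
`main` had not been handed in.
-/

open CategoryTheory AlgebraicGeometry

set_option autoImplicit false

universe u v w w'

namespace Pool.Agent.Results.MP_5c0b30_ag.LieIsomorphisms

open Pool.Agent.H914 Pool.Agent.H914.VarClass Pool.Agent.H914.VarClass.Obj
  Pool.Agent.H914.WeilCohomology Pool.Agent.N190.JLS Pool.Agent.N190.JMS

/-- **Algebraic Lie isomorphisms of non-zero rank.** -/
theorem result {k : Type u} [Field k] {𝒱 : VarClass k} {ops : CycleOps 𝒱}
    (W : WeilCohomology.{u, v} ops) (X Y : 𝒱.Obj) (hdim : X.dim = Y.dim) (D : X.Cycles)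
    (E : Y.Cycles) (g : Set (Mp W X X)) (g' : Set (Mp W Y Y))
    (hD : X.IsCyc 1 D) (hHL : HardLefschetz W X D) (hg : IsJordanLefschetz W X D g)
    (hE : Y.IsCyc 1 E) (hHL' : HardLefschetz W Y E) (hg' : IsJordanLefschetz W Y E g')
    (u : Mp W X Y) (v : Mp W Y X) (h : IsLieIsomorphism W X Y g g' u v)
    (hu : HasRank W X Y g u) (hv : HasRank W Y X g' v) :
    (LefschetzB W X D ∧ LefschetzB W Y E) ∧
    (∃ s s', IsLieIsomorphism W X Y g g' s s' ∧ IsMultiplicative (W.gr X) (W.gr Y) g s) ∧
    ∃ (z : (X.prod Y).Cycles) (z' : (Y.prod X).Cycles),
      (X.prod Y).IsCyc X.dim z ∧ (Y.prod X).IsCyc Y.dim z' ∧
      ∀ W' : WeilCohomology.{u, v} ops, SameBetti W W' X → SameBetti W W' Y →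
        AreInverse W' X Y z z' ∧ ∀ 𝓜 : Motives.{u, w, w'} ops,
          KernelNilpotent W' 𝓜 X → KernelNilpotent W' 𝓜 Y → GivesIso 𝓜 X Y z :=
  main hdim hD hHL hg hE hHL' hg' h hu hv

end Pool.Agent.Results.MP_5c0b30_ag.LieIsomorphisms
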