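import Pool.Agent.U233.DU.Final
import Pool.Agent.U233.DU.Motive

/-!
# Orlov's conjecture for relative Fourier-Mukai partners with fibres of dimension at most two

Let `X`, `Y` be smooth projective complex varieties of dimension `n` with `D(X) ≃ D(Y)`.  `KRing` is
the cohomology ring of `X` with its Hodge theory, `RatStr` the rational structure, `FM` the induced
isomorphism of cohomology (real, graded by `p - q`, isometric for the Mukai pairings), which is
rational and commutes with the first Chern classes, because an equivalence commutes with the Serre
functors.  Suppose that it commutes also with the pull-backs `L = f^* A`, `L' = g^* A` of an ample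
class under morphisms `f : X → B`, `g : Y → B`.  This holds for

* equivalences which are linear over `B` (relative Fourier-Mukai transforms);
* all equivalences, if the canonical classes are semiample (or anti-semiample), `L = ± K` and `f`,
  `g` are the pluricanonical morphisms.

`RelHR` (the relative Hodge-Riemann bilinear relations for `L`) is then a theorem of de Cataldo and
Migliorini, and `KK / TT` is the Hodge structure `P^{-κ}(B, pH^u)`, the primitive part of the
cohomology of `B` with values in the perverse sheaf `pH^u (Rf_* ℚ [n])`, `u = p + q + κ - n`.
`Defect X L d` says that `L ^ κ` is injective in degree `n - d - κ` for all `κ`; this holds if all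
fibres of `f` have dimension at most `d`, more generally if the defect of semismallness is at
most `d`.

**Hodge structures.**  If the Hodge structures `P^{-κ}(B, pH^u)` of `X` and `Y` are isomorphic for
`u ≤ - 3` (`LowIso`) then `H^m(X, ℚ)` and `H^m(Y, ℚ)` are isomorphic Hodge structures for all `m`.
There is no condition if the defects are at most two (for example if all fibres have dimension at
most two); and if they are at most three, only the classes of degree `n - κ - 3` killed by
`L ^ (κ + 1)` have to be compared (`BaseIso`; if all fibres have dimension three and are connected
these are the primitive intersection cohomology of `B`, for `X` and for `Y`).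

**Motives.**  The same with algebraic correspondences in the place of maps of Hodge structures: if
`X` satisfies the standard conjecture of Lefschetz type, `L` is algebraic and the pieces with
`u ≤ - 3` are isomorphic by algebraic correspondences (no condition for defect at most two), then
the homological motives of `X` and `Y` are isomorphic, and also their Chow motives if homologically
trivial self-correspondences of `X` or of `Y` are nilpotent (for example if `X` is Kimura-finite).
Without conjectures this can be applied to motivated cycles (André).  For `L = 0` these are the
theorems of the starting library on varieties of dimension at most three or four (`LowDimension`);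
here the dimension is arbitrary.

The proof.  The algebra `E` of rational endomorphisms of all degrees `(i, i)` of the Hodge structure
(or of algebraic operators) of `X` is semisimple, contains `L` and the Lefschetz operators, and is
identified with the one of `Y` by the equivalence.  Its involution (adjoint for the Hodge-Riemann
form) fixes all central idempotents `π`.  So the part `π H(X)` satisfies the relative
Hodge-Riemann relations, and the signatures of the hermitian forms `∫ L ^ κ x ȳ` on its subspaces
of classes with `p - q` fixed give inertia relations between the dimensions of the pieces
`P^{-κ}(B, pH^u)` in `π H(X)` and `π H(Y)`; these show by recursion in `κ` that all dimensions agree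
if they agree for `u ≤ - 3`.  Idempotents of `E` are conjugate if their products with all central
idempotents have the same rank, and this is applied to the projectors to `H^m(X)` and `H^m(Y)`.
-/

set_option autoImplicit false

universe u v

namespace Pool.Agent.Results.MP_5c0b30_ag.RelativePartners

open CategoryTheory Pool.Agent.W539.DI Pool.Agent.R929.DH Pool.Agent.R941.OH
open Pool.Agent.U233.DT (Defect)
open Pool.Agent.U233.DU Pool.Agent.N174.OC

/-- **Theorem.** -/
theorem result (n : ℕ) :
    (∀ (X Y : KRing n) (r : RatStr X) (t : RatStr Y) (L : X.R) (L' : Y.R) (Φ : FM X Y),
      Partners r t L L' Φ →
      (LowIso r t L L' → ∀ m, HStr.HodgeIso r t m) ∧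
      (Defect X L 3 → Defect Y L' 3 → BaseIso r t L L' → ∀ m, HStr.HodgeIso r t m) ∧
      (Defect X L 2 → Defect Y L' 2 → ∀ m, HStr.HodgeIso r t m)) ∧
    (∀ {𝒪 : Type u} [Category.{v} 𝒪] [Preadditive 𝒪] [Linear ℚ 𝒪] (T : CycTheory 𝒪 n) (X Y : 𝒪)
      (v : X ⟶ Y) (w : Y ⟶ X) (L : (T.K X).R) (L' : (T.K Y).R), MPartners T v w L L' →
      (LowAlg T L L' → Orlov T X Y) ∧
      (Defect (T.K X) L 3 → Defect (T.K Y) L' 3 → BaseAlg T L L' → Orlov T X Y) ∧
      (Defect (T.K X) L 2 → Defect (T.K Y) L' 2 → Orlov T X Y)) :=
  ⟨fun _ _ _ _ _ _ _ h => hodge h, fun T _ _ _ _ _ _ h => orlov T h⟩

end Pool.Agent.Results.MP_5c0b30_ag.RelativePartners
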